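import Pool.Agent.W92_MP_94b3e1_an.Final

set_option autoImplicit false

namespace Pool.Agent.Results.MP_94b3e1_an.SeparableCase

open Topology TopologicalSpace Pool.Agent.W92_MP_94b3e1_an

/-- (1) Dense lineability for separable spaces. (2) For every continuous self map `S` of a nonempty
Polish space whose reiteratively recurrent points are dense there is a dense sequence
`w 0, w 1, ...` such that each tuple `(w 0, ..., w (n - 1))` is reiteratively recurrent for the
`n`-fold product map `S × ... × S`. -/
theorem result :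
    (∀ (𝕂 : Type) [RCLike 𝕂] (X : Type) [NormedAddCommGroup X] [NormedSpace 𝕂 X]
      [CompleteSpace X] [SeparableSpace X] (T : X →L[𝕂] X),
      Dense {x : X | IsRRec T x} →
        ∃ M : Submodule 𝕂 X, Dense (M : Set X) ∧ ∀ x ∈ M, IsRRec T x) ∧
    (∀ (Z : Type) [TopologicalSpace Z] [PolishSpace Z] [Nonempty Z] (S : Z → Z), Continuous S →
      Dense {x : Z | IsRRec S x} →
        ∃ w : ℕ → Z, DenseRange w ∧
          ∀ n : ℕ, IsRRec (fun (v : Fin n → Z) (i : Fin n) => S (v i)) (fun i => w i)) :=
  ⟨fun 𝕂 _ X _ _ _ _ T hT => dense_lineable 𝕂 X T hT,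
    fun Z _ _ _ S hS hd => dense_sequence Z S hS hd⟩

end Pool.Agent.Results.MP_94b3e1_an.SeparableCase
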